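import Pool.Agent.H3.HG.Targets

/-!
Row PSI of the board `hg_modules`: the homomorphism `H₂(Γ/γ_n) → γ_n/γ_{n+1}`.
-/

namespace Pool.Agent.H3.HG

open scoped commutatorElement

lemma map_lcs_surj {F Γ : Type} [Group F] [Group Γ] (p : F →* Γ) (hp : Function.Surjective p)
    (n : ℕ) :
    ((⊤ : Subgroup F).lowerCentralSeries n).map p = (⊤ : Subgroup Γ).lowerCentralSeries n := by
  rw [Subgroup.map_lowerCentralSeries, ← MonoidHom.range_eq_map, MonoidHom.range_eq_top.2 hp]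

theorem pf_PSI (hCYC : T_CYC) (hSUR : T_SUR) (hKER : T_KER) (hZER : T_ZER) : T_PSI := by
  intro F Γ _ _ hF p hp n hn lam hlam
  set L : ℕ → Subgroup Γ := fun k => (⊤ : Subgroup Γ).lowerCentralSeries k with hL
  set pn : F →* Γ ⧸ (⊤ : Subgroup Γ).lowerCentralSeries n :=
    (QuotientGroup.mk' ((⊤ : Subgroup Γ).lowerCentralSeries n)).comp p with hpn
  have hpns : Function.Surjective pn := (QuotientGroup.mk'_surjective _).comp hp
  obtain ⟨z1, z2, z3⟩ := hZER _ _ pn lam hlam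
  have mem_pn : ∀ r, r ∈ pn.ker ↔ p r ∈ L n := by
    intro r
    rw [MonoidHom.mem_ker, hpn, MonoidHom.comp_apply, QuotientGroup.mk'_apply,
      QuotientGroup.eq_one_iff]
  have hcomm : ∀ r ∈ ⁅(⊤ : Subgroup F), pn.ker⁆, p r ∈ L (n + 1) := by
    have : ⁅(⊤ : Subgroup F), pn.ker⁆ ≤ (L (n + 1)).comap p := by
      rw [Subgroup.commutator_le]
      intro f _ r hr
      rw [Subgroup.mem_comap, map_commutatorElement]
      show _ ∈ (⊤ : Subgroup Γ).lowerCentralSeries (n + 1)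
      rw [Subgroup.lowerCentralSeries_succ, Subgroup.commutator_comm]
      exact Subgroup.commutator_mem_commutator trivial ((mem_pn r).1 hr)
    exact fun r hr => this hr
  have zinv : ∀ y ∈ pn.ker, al lam y⁻¹ = -al lam y := by
    intro y hy
    have := z2 y hy y⁻¹ (inv_mem hy)
    rw [mul_inv_cancel, z3] at this
    exact (neg_eq_of_add_eq_zero_right this.symm).symm
  have wd0 : ∀ x ∈ pn.ker ⊓ commutator F, ∀ y ∈ pn.ker ⊓ commutator F, al lam x = al lam y →
      x * y⁻¹ ∈ ⁅(⊤ : Subgroup F), pn.ker⁆ := by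
    intro x hx y hy h
    apply hKER _ _ pn lam hlam hpns _ (mul_mem hx (inv_mem hy))
    rw [z2 x (Subgroup.mem_inf.1 hx).1 _ (inv_mem (Subgroup.mem_inf.1 hy).1),
      zinv y (Subgroup.mem_inf.1 hy).1, h, add_neg_cancel]
  have wd : ∀ x ∈ pn.ker ⊓ commutator F, ∀ y ∈ pn.ker ⊓ commutator F, al lam x = al lam y →
      (QuotientGroup.mk (p x) : Γ ⧸ L (n + 1)) = QuotientGroup.mk (p y) := by
    intro x hx y hy h
    have h1 := hcomm _ (wd0 x hx y hy h)
    have h2 : (QuotientGroup.mk (p x * (p y)⁻¹) : Γ ⧸ L (n + 1)) = 1 := by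
      rw [QuotientGroup.eq_one_iff, ← map_inv, ← map_mul]
      exact h1
    rw [QuotientGroup.mk_mul, QuotientGroup.mk_inv] at h2
    exact mul_inv_eq_one.1 h2
  have hex : ∀ z : Z2 (Γ ⧸ (⊤ : Subgroup Γ).lowerCentralSeries n),
      ∃ x ∈ pn.ker ⊓ commutator F, al lam x = z := fun z => hSUR _ _ pn lam hlam hpns z z.2
  choose x hxm hxe using hex
  let ψ : Multiplicative (Z2 (Γ ⧸ (⊤ : Subgroup Γ).lowerCentralSeries n)) →*
        (Γ ⧸ (⊤ : Subgroup Γ).lowerCentralSeries (n + 1)) :=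
    MonoidHom.mk' (fun z => QuotientGroup.mk (p (x z.toAdd))) (by
      intro a b
      have h1 : (QuotientGroup.mk (p (x (a * b).toAdd)) : Γ ⧸ L (n + 1))
          = QuotientGroup.mk (p (x a.toAdd * x b.toAdd)) := by
        apply wd _ (hxm _) _ (mul_mem (hxm _) (hxm _))
        rw [hxe, z2 _ (Subgroup.mem_inf.1 (hxm _)).1 _ (Subgroup.mem_inf.1 (hxm _)).1, hxe, hxe]
        rfl
      show (QuotientGroup.mk (p (x (a * b).toAdd)) : Γ ⧸ L (n + 1)) = _
      rw [h1, map_mul, QuotientGroup.mk_mul])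
  have hψ : ∀ x' ∈ pn.ker ⊓ commutator F,
      ∀ z : Z2 (Γ ⧸ (⊤ : Subgroup Γ).lowerCentralSeries n),
      (z : M (Γ ⧸ (⊤ : Subgroup Γ).lowerCentralSeries n)) = al lam x' →
          ψ (Multiplicative.ofAdd z) = QuotientGroup.mk (p x') := by
    intro x' hx' z hz
    exact wd _ (hxm z) _ hx' (by rw [hxe, hz])
  refine ⟨ψ, ?_, hψ, ?_⟩
  · apply le_antisymm
    · rintro _ ⟨z, rfl⟩
      rw [← map_lcs_surj (QuotientGroup.mk' ((⊤ : Subgroup Γ).lowerCentralSeries (n + 1)))
        (QuotientGroup.mk'_surjective _) n]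
      exact ⟨p (x z.toAdd), (mem_pn _).1 (Subgroup.mem_inf.1 (hxm _)).1, rfl⟩
    · intro y hy
      rw [← map_lcs_surj ((QuotientGroup.mk' ((⊤ : Subgroup Γ).lowerCentralSeries (n + 1))).comp p)
        ((QuotientGroup.mk'_surjective _).comp hp) n] at hy
      obtain ⟨f, hf, rfl⟩ := hy
      have hfk : f ∈ pn.ker ⊓ commutator F := by
        refine Subgroup.mem_inf.2 ⟨(mem_pn f).2 ?_, ?_⟩
        · show _ ∈ (⊤ : Subgroup Γ).lowerCentralSeries n
          rw [← map_lcs_surj p hp n]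
          exact ⟨f, hf, rfl⟩
        · rw [← Subgroup.top_lowerCentralSeries_one]
          exact (⊤ : Subgroup F).lowerCentralSeries_antitone hn hf
      refine ⟨Multiplicative.ofAdd ⟨al lam f, hCYC _ _ pn lam hlam f hfk⟩, ?_⟩
      exact hψ f hfk _ rfl
  · intro hG
    rw [injective_iff_map_eq_one]
    intro z hz
    have h1 : p (x z.toAdd) ∈ (⊤ : Subgroup Γ).lowerCentralSeries (n + 1) := by
      have : (QuotientGroup.mk (p (x z.toAdd)) : Γ ⧸ L (n + 1)) = 1 := hz
      exact (QuotientGroup.eq_one_iff _).1 this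
    rw [← map_lcs_surj p hp (n + 1)] at h1
    obtain ⟨y, hy, hxy⟩ := h1
    obtain ⟨lam0, hlam0⟩ := exists_lift hF p
    have hyc : y ∈ commutator F := by
      rw [← Subgroup.top_lowerCentralSeries_one]
      exact (⊤ : Subgroup F).lowerCentralSeries_antitone (by omega) hy
    have hk : x z.toAdd * y⁻¹ ∈ p.ker ⊓ commutator F := by
      refine Subgroup.mem_inf.2 ⟨?_, mul_mem (Subgroup.mem_inf.1 (hxm _)).2 (inv_mem hyc)⟩
      rw [MonoidHom.mem_ker, map_mul, map_inv, hxy, mul_inv_cancel]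
    have h2 : x z.toAdd * y⁻¹ ∈ ⁅(⊤ : Subgroup F), pn.ker⁆ := by
      have h3 := hKER _ _ p lam0 hlam0 hp _ hk (hG _ (hCYC _ _ p lam0 hlam0 _ hk))
      have hle : p.ker ≤ pn.ker := by
        intro r hr
        rw [mem_pn, MonoidHom.mem_ker.1 hr]
        exact one_mem _
      exact Subgroup.commutator_mono le_rfl hle h3
    have h3 : y ∈ ⁅(⊤ : Subgroup F), pn.ker⁆ := by
      have hle : (⊤ : Subgroup F).lowerCentralSeries n ≤ pn.ker := by
        intro r hr
        rw [mem_pn]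
        show _ ∈ (⊤ : Subgroup Γ).lowerCentralSeries n
        rw [← map_lcs_surj p hp n]
        exact ⟨r, hr, rfl⟩
      rw [Subgroup.lowerCentralSeries_succ, Subgroup.commutator_comm] at hy
      exact Subgroup.commutator_mono le_rfl hle hy
    have h4 : x z.toAdd ∈ ⁅(⊤ : Subgroup F), pn.ker⁆ := by
      have := mul_mem h2 h3
      rwa [inv_mul_cancel_right] at this
    have h5 := z1 _ h4
    rw [hxe] at h5
    have h6 : z.toAdd = 0 := Subtype.ext h5
    exact toAdd_eq_zero.1 h6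

end Pool.Agent.H3.HG
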