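import Pool.Agent.H3.HG.GEN
import Pool.Agent.H3.HG.PSI

/-!
Row INV of the board `hg_modules`: in a lower central genus with `H₂(G) = 0` the classes of
`H₂(H)` vanish in `H₂` of all nilpotent quotients.
-/

namespace Pool.Agent.H3.HG

open scoped commutatorElement

lemma Mmap_id {Γ : Type} [Group Γ] (m : M Γ) : Mmap (MonoidHom.id Γ) m = m := by
  have : Mmap (MonoidHom.id Γ) = AddMonoidHom.id (M Γ) := by
    apply M_hom_ext
    intro g k
    rw [Mmap_br]
    rfl
  rw [this]
  rfl

lemma Mmap_comp {A B C : Type} [Group A] [Group B] [Group C] (φ : B →* C) (χ : A →* B) (m : M A) :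
    Mmap φ (Mmap χ m) = Mmap (φ.comp χ) m := by
  have : (Mmap φ).comp (Mmap χ) = Mmap (φ.comp χ) := by
    apply M_hom_ext
    intro g k
    rw [AddMonoidHom.comp_apply, Mmap_br, Mmap_br, Mmap_br]
    rfl
  rw [← this]
  rfl

lemma dbar_Mmap {A B : Type} [Group A] [Group B] (φ : A →* B) (m : M A) :
    dbar B (Mmap φ m) = Finsupp.mapDomain φ (dbar A m) := by
  have : (dbar B).comp (Mmap φ) = (Finsupp.mapDomain.addMonoidHom φ).comp (dbar A) := by
    apply M_hom_ext
    intro g k
    rw [AddMonoidHom.comp_apply, AddMonoidHom.comp_apply, Mmap_br, dbar_br, dbar_br, map_add,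
      map_sub, Finsupp.mapDomain.addMonoidHom_apply, Finsupp.mapDomain.addMonoidHom_apply,
      Finsupp.mapDomain.addMonoidHom_apply, Finsupp.mapDomain_single, Finsupp.mapDomain_single,
      Finsupp.mapDomain_single, map_mul]
  exact DFunLike.congr_fun this m

lemma Mmap_mem_Z2 {A B : Type} [Group A] [Group B] (φ : A →* B) {m : M A} (hm : m ∈ Z2 A) :
    Mmap φ m ∈ Z2 B := by
  have h0 : dbar A m = 0 := hm
  show dbar B (Mmap φ m) = 0
  rw [dbar_Mmap, h0, Finsupp.mapDomain_zero]

/-- Functoriality of `Z2`. -/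
noncomputable def Zmap {A B : Type} [Group A] [Group B] (φ : A →* B) : Z2 A →+ Z2 B :=
  ((Mmap φ).comp (Z2 A).subtype).codRestrict (Z2 B) (fun m => Mmap_mem_Z2 φ m.2)

lemma Zmap_coe {A B : Type} [Group A] [Group B] (φ : A →* B) (m : Z2 A) :
    (Zmap φ m : M B) = Mmap φ m := rfl

lemma Zmap_surj {A B : Type} [Group A] [Group B] (e : A ≃* B) :
    Function.Surjective (Zmap (e : A →* B)) := by
  intro w
  refine ⟨Zmap (e.symm : B →* A) w, Subtype.ext ?_⟩
  rw [Zmap_coe, Zmap_coe, Mmap_comp]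
  have : (e : A →* B).comp (e.symm : B →* A) = MonoidHom.id B := by
    ext b; simp
  rw [this, Mmap_id]

/-- A surjective endomorphism of a finitely generated commutative group is injective,
in the form needed. -/
lemma hopf_aux {Z : Type} [AddCommGroup Z] {P : Type} [Group P] (a b : Multiplicative Z →* P)
    (ha : Function.Injective a) (hfg : a.range.FG) (hr : b.range = a.range) :
    Function.Injective b := by
  let ea := MonoidHom.ofInjective ha
  have hb : ∀ z, b z ∈ a.range := fun z => by rw [← hr]; exact ⟨z, rfl⟩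
  let f : Multiplicative Z →* Multiplicative Z :=
    (ea.symm : a.range →* Multiplicative Z).comp (b.codRestrict a.range hb)
  have hf : ∀ z, a (f z) = b z := by
    intro z
    have : (ea (f z) : P) = b z := by
      show (ea (ea.symm (b.codRestrict a.range hb z)) : P) = b z
      rw [MulEquiv.apply_symm_apply]
      rfl
    rw [← this]
    rfl
  have hfs : Function.Surjective f := by
    intro w
    have : a w ∈ b.range := by rw [hr]; exact ⟨w, rfl⟩
    obtain ⟨z, hz⟩ := this
    exact ⟨z, ha (by rw [hf, hz])⟩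
  have hZ : Group.FG (Multiplicative Z) := by
    have : Group.FG a.range := (Group.fg_iff_subgroup_fg _).2 hfg
    exact Group.fg_of_surjective (f := (ea.symm : a.range →* Multiplicative Z)) ea.symm.surjective
  have hZ' : Module.Finite ℤ Z := by
    have : AddGroup.FG Z := AddGroup.fg_iff_mul_fg.2 hZ
    exact Module.Finite.iff_addGroup_fg.2 this
  have hinj : Function.Injective f := by
    have h1 : Function.Surjective (MonoidHom.toAdditive f).toIntLinearMap := hfs
    have h2 := IsNoetherian.injective_of_surjective_endomorphism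
      (f := ((MonoidHom.toAdditive f).toIntLinearMap : Z →ₗ[ℤ] Z)) h1
    exact h2
  intro u v huv
  apply hinj
  apply ha
  rw [hf, hf, huv]

theorem pf_INV (hCYC : T_CYC) (_hZER : T_ZER) (hKER : T_KER) (hPSI : T_PSI) (hNOE : T_NOE) :
    T_INV := by
  intro G H _ _ _ hiso hG F _ hF p hp x hx n
  rcases Nat.lt_or_ge n 2 with hn | hn
  · apply Subgroup.mem_sup_right
    have h1 : x ∈ (⊤ : Subgroup F).lowerCentralSeries 1 := (Subgroup.mem_inf.1 hx).2
    exact (⊤ : Subgroup F).lowerCentralSeries_antitone (by omega) h1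
  obtain ⟨m, rfl⟩ : ∃ m, n = m + 1 := ⟨n - 1, by omega⟩
  have hm : 1 ≤ m := by omega
  apply comm_ker_le p hp m
  obtain ⟨lam, hlam⟩ := exists_lift hF
    ((QuotientGroup.mk' ((⊤ : Subgroup H).lowerCentralSeries m)).comp p)
  obtain ⟨ψH, rH, vH, -⟩ := hPSI F H hF p hp m hm lam hlam
  have hpG : Function.Surjective (FreeGroup.lift (id : G → G)) := fun g => ⟨FreeGroup.of g, by simp⟩
  obtain ⟨lamG, hlamG⟩ := exists_lift (proj_of_free (FreeGroup G))
    ((QuotientGroup.mk' ((⊤ : Subgroup G).lowerCentralSeries m)).comp (FreeGroup.lift id))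
  obtain ⟨ψG, rG, -, iG⟩ := hPSI (FreeGroup G) G (proj_of_free _) (FreeGroup.lift id) hpG m hm
    lamG hlamG
  have ψGinj := iG hG
  obtain ⟨e⟩ := hiso m
  obtain ⟨e'⟩ := hiso (m + 1)
  -- the two homomorphisms to `G ⧸ L (m + 1)`
  let b : Multiplicative (Z2 (G ⧸ (⊤ : Subgroup G).lowerCentralSeries m)) →*
      G ⧸ (⊤ : Subgroup G).lowerCentralSeries (m + 1) :=
    (e'.symm : H ⧸ (⊤ : Subgroup H).lowerCentralSeries (m + 1) →*
      G ⧸ (⊤ : Subgroup G).lowerCentralSeries (m + 1)).comp
      (ψH.comp (AddMonoidHom.toMultiplicative (Zmap (e :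
        G ⧸ (⊤ : Subgroup G).lowerCentralSeries m →* H ⧸ (⊤ : Subgroup H).lowerCentralSeries m))))
  have hZs := Zmap_surj e
  have hbr : b.range = ψG.range := by
    rw [rG, ← map_lcs_surj (e'.symm : H ⧸ (⊤ : Subgroup H).lowerCentralSeries (m + 1) →*
      G ⧸ (⊤ : Subgroup G).lowerCentralSeries (m + 1)) e'.symm.surjective m, ← rH]
    ext y
    constructor
    · rintro ⟨z, rfl⟩
      exact ⟨_, ⟨_, rfl⟩, rfl⟩
    · rintro ⟨_, ⟨w, rfl⟩, rfl⟩
      obtain ⟨z, hz⟩ := hZs w.toAdd
      refine ⟨Multiplicative.ofAdd z, ?_⟩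
      show e'.symm (ψH (Multiplicative.ofAdd (Zmap _ z))) = _
      rw [hz]
      rfl
  have hfg : ψG.range.FG := by
    have hnil : Group.IsNilpotent (G ⧸ (⊤ : Subgroup G).lowerCentralSeries (m + 1)) := by
      rw [Subgroup.nilpotent_iff_lowerCentralSeries]
      refine ⟨m + 1, ?_⟩
      rw [← map_lcs_surj (QuotientGroup.mk' _) (QuotientGroup.mk'_surjective _) (m + 1)]
      rw [Subgroup.map_eq_bot_iff, QuotientGroup.ker_mk']
    have hFG : Group.FG (G ⧸ (⊤ : Subgroup G).lowerCentralSeries (m + 1)) := by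
      have : Group.FG (H ⧸ (⊤ : Subgroup H).lowerCentralSeries (m + 1)) :=
        Group.fg_of_surjective (QuotientGroup.mk'_surjective _)
      exact Group.fg_of_surjective (f := (e'.symm : H ⧸ (⊤ : Subgroup H).lowerCentralSeries (m + 1)
        →* G ⧸ (⊤ : Subgroup G).lowerCentralSeries (m + 1))) e'.symm.surjective
    exact hNOE _ _
  have hbinj : Function.Injective b := hopf_aux ψG b ψGinj hfg hbr
  have hψH : Function.Injective ψH := by
    rw [injective_iff_map_eq_one]
    intro w hw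
    obtain ⟨z, hz⟩ := hZs w.toAdd
    have h1 : b (Multiplicative.ofAdd z) = 1 := by
      show e'.symm (ψH (Multiplicative.ofAdd (Zmap _ z))) = 1
      rw [hz]
      show e'.symm (ψH w) = 1
      rw [hw, map_one]
    have h2 : Multiplicative.ofAdd z = 1 := hbinj (by rw [h1, map_one])
    have h3 : z = 0 := h2
    rw [h3, map_zero] at hz
    exact toAdd_eq_zero.1 hz.symm
  have hxk : x ∈ ((QuotientGroup.mk' ((⊤ : Subgroup H).lowerCentralSeries m)).comp p).ker ⊓
      commutator F := by
    refine Subgroup.mem_inf.2 ⟨?_, (Subgroup.mem_inf.1 hx).2⟩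
    rw [MonoidHom.mem_ker, MonoidHom.comp_apply, MonoidHom.mem_ker.1 (Subgroup.mem_inf.1 hx).1,
      map_one]
  have hal : al lam x = 0 := by
    have h1 := vH x hxk ⟨al lam x, hCYC _ _ _ lam hlam x hxk⟩ rfl
    have h2 : (QuotientGroup.mk (p x) : H ⧸ (⊤ : Subgroup H).lowerCentralSeries (m + 1)) = 1 := by
      rw [MonoidHom.mem_ker.1 (Subgroup.mem_inf.1 hx).1]
      rfl
    rw [h2] at h1
    have h3 := hψH (h1.trans (map_one ψH).symm)
    have h4 : (⟨al lam x, hCYC _ _ _ lam hlam x hxk⟩ :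
      Z2 (H ⧸ (⊤ : Subgroup H).lowerCentralSeries m)) = 0 := h3
    exact congrArg Subtype.val h4
  exact hKER _ _ _ lam hlam ((QuotientGroup.mk'_surjective _).comp hp) x hxk hal

end Pool.Agent.H3.HG
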