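import Pool.Agent.H3.HG.Targets

/-!
Row KER of the board `hg_modules`: injectivity in the Hopf formula.
-/

namespace Pool.Agent.H3.HG

open Finsupp
open scoped commutatorElement IsMulCommutative

/-- Two homomorphisms which differ by central elements agree on the commutator subgroup. -/
lemma eq_on_comm {F P : Type} [Group F] [Group P] (a b : F →* P)
    (h : ∀ x, a x * (b x)⁻¹ ∈ Subgroup.center P) : ∀ x ∈ commutator F, a x = b x := by
  have hc : ∀ x (y : P), (a x * (b x)⁻¹) * y = y * (a x * (b x)⁻¹) := by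
    intro x y
    exact (Subgroup.mem_center_iff.1 (h x) y).symm
  let τ : F →* P :=
    { toFun := fun x => a x * (b x)⁻¹
      map_one' := by simp
      map_mul' := by
        intro x y
        calc a (x * y) * (b (x * y))⁻¹ = a x * ((a y * (b y)⁻¹) * (b x)⁻¹) := by
              rw [map_mul, map_mul]; group
          _ = a x * ((b x)⁻¹ * (a y * (b y)⁻¹)) := by rw [hc y]
          _ = a x * (b x)⁻¹ * (a y * (b y)⁻¹) := by group }
  intro x hx
  have hle : commutator F ≤ τ.ker := by
    rw [commutator_def, Subgroup.commutator_le]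
    intro u _ v _
    rw [MonoidHom.mem_ker, map_commutatorElement, commutatorElement_eq_one_iff_mul_comm]
    exact hc u (τ v)
  have : a x * (b x)⁻¹ = 1 := hle hx
  exact mul_inv_eq_one.1 this

section

variable {F Γ : Type} [Group F] [Group Γ] (p : F →* Γ) (s : Γ → F) (hs : ∀ g, p (s g) = g)

/-- The subgroup `[F, ker p]`. -/
abbrev NN : Subgroup F := ⁅(⊤ : Subgroup F), p.ker⁆

lemma mk_mem_center {r : F} (hr : r ∈ p.ker) :
    (QuotientGroup.mk r : F ⧸ NN p) ∈ Subgroup.center (F ⧸ NN p) := by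
  rw [Subgroup.mem_center_iff]
  intro y
  obtain ⟨f, rfl⟩ := QuotientGroup.mk_surjective y
  rw [← QuotientGroup.mk_mul, ← QuotientGroup.mk_mul, QuotientGroup.eq]
  have h1 : ⁅r⁻¹, f⁻¹⁆ ∈ NN p := by
    rw [show NN p = ⁅p.ker, (⊤ : Subgroup F)⁆ from Subgroup.commutator_comm _ _]
    exact Subgroup.commutator_mem_commutator (inv_mem hr) trivial
  have h2 : (f * r)⁻¹ * (r * f) = ⁅r⁻¹, f⁻¹⁆ := by
    rw [commutatorElement_def]; group
  rw [h2]
  exact h1

include hs in
lemma cc_mem_ker (g h : Γ) : s g * s h * (s (g * h))⁻¹ ∈ p.ker := by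
  rw [MonoidHom.mem_ker, map_mul, map_mul, map_inv, hs, hs, hs, mul_inv_cancel]

/-- The cocycle of the section `s`, with values in the center of `F / [F, ker p]`. -/
noncomputable def cc (g h : Γ) : Subgroup.center (F ⧸ NN p) :=
  ⟨QuotientGroup.mk (s g * s h * (s (g * h))⁻¹), mk_mem_center p (cc_mem_ker p s hs g h)⟩

lemma cc_rel (g h : Γ) :
    (QuotientGroup.mk (s g) : F ⧸ NN p) * QuotientGroup.mk (s h)
      = (cc p s hs g h : F ⧸ NN p) * QuotientGroup.mk (s (g * h)) := by
  show _ = (QuotientGroup.mk (s g * s h * (s (g * h))⁻¹) : F ⧸ NN p) * QuotientGroup.mk (s (g * h))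
  rw [← QuotientGroup.mk_mul, ← QuotientGroup.mk_mul]
  rw [inv_mul_cancel_right]

lemma cc_cocycle (g h k : Γ) :
    cc p s hs h k * cc p s hs g (h * k) = cc p s hs (g * h) k * cc p s hs g h := by
  apply Subtype.ext
  have cen : ∀ (c : Subgroup.center (F ⧸ NN p)) (y : F ⧸ NN p), y * (c : F ⧸ NN p) = c * y :=
    fun c y => Subgroup.mem_center_iff.1 c.2 y
  set S : Γ → F ⧸ NN p := fun g => QuotientGroup.mk (s g) with hS
  have r : ∀ a b, S a * S b = (cc p s hs a b : F ⧸ NN p) * S (a * b) := cc_rel p s hs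
  have e1 : S g * S h * S k
      = ((cc p s hs (g * h) k : F ⧸ NN p) * cc p s hs g h) * S (g * h * k) := by
    rw [r g h, mul_assoc, r (g * h) k, ← mul_assoc, cen]
  have e2 : S g * (S h * S k)
      = ((cc p s hs h k : F ⧸ NN p) * cc p s hs g (h * k)) * S (g * (h * k)) := by
    rw [r h k, ← mul_assoc, cen, mul_assoc, r g (h * k), ← mul_assoc]
  rw [mul_assoc, e2, mul_assoc g h k] at e1
  rw [Subgroup.coe_mul, Subgroup.coe_mul]
  exact mul_right_cancel e1

/-- The homomorphism `M Γ → center (F / [F, ker p])`. -/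
noncomputable def beta0 : (Γ × Γ →₀ ℤ) →+ Additive (Subgroup.center (F ⧸ NN p)) :=
  liftAddHom (N := Additive (Subgroup.center (F ⧸ NN p)))
    (fun q : Γ × Γ => zmultiplesHom (Additive (Subgroup.center (F ⧸ NN p)))
      (Additive.ofMul (cc p s hs q.1 q.2)))

lemma beta0_single (g h : Γ) :
    beta0 p s hs (single (g, h) 1) = Additive.ofMul (cc p s hs g h) := by
  simp [beta0]

lemma beta0_bd : bd Γ ≤ (beta0 p s hs).ker := by
  rw [bd, AddSubgroup.closure_le]
  rintro c ⟨g, h, k, rfl⟩
  rw [SetLike.mem_coe, AddMonoidHom.mem_ker, map_sub, map_add, map_sub, beta0_single,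
    beta0_single, beta0_single, beta0_single]
  have := congrArg Additive.ofMul (cc_cocycle p s hs g h k)
  simp only [ofMul_mul] at this
  rw [sub_add_eq_add_sub, this]
  abel

/-- The homomorphism `M Γ → center (F / [F, ker p])`. -/
noncomputable def beta : M Γ →+ Additive (Subgroup.center (F ⧸ NN p)) :=
  QuotientAddGroup.lift (bd Γ) (beta0 p s hs) (beta0_bd p s hs)

lemma beta_br (g h : Γ) : beta p s hs (br g h) = Additive.ofMul (cc p s hs g h) :=
  beta0_single p s hs g h

/-- The value of `beta` in the quotient group. -/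
noncomputable def bv (m : M Γ) : F ⧸ NN p := ((beta p s hs m).toMul : F ⧸ NN p)

lemma bv_add (m m' : M Γ) : bv p s hs (m + m') = bv p s hs m * bv p s hs m' := by
  rw [bv, map_add, toMul_add]; rfl

lemma bv_neg (m : M Γ) : bv p s hs (-m) = (bv p s hs m)⁻¹ := by
  rw [bv, map_neg, toMul_neg]; rfl

lemma bv_br (g h : Γ) : bv p s hs (br g h) = (cc p s hs g h : F ⧸ NN p) := by
  rw [bv, beta_br]; rfl

lemma bv_center (m : M Γ) : bv p s hs m ∈ Subgroup.center (F ⧸ NN p) :=
  (beta p s hs m).toMul.2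

lemma bv_comm (m : M Γ) (y : F ⧸ NN p) : y * bv p s hs m = bv p s hs m * y :=
  Subgroup.mem_center_iff.1 (bv_center p s hs m) y

lemma bv_br_one : bv p s hs (br 1 1) = QuotientGroup.mk (s 1) := by
  have := cc_rel p s hs 1 1
  rw [← bv_br, mul_one] at this
  exact (mul_right_cancel this).symm

/-- The homomorphism `E Γ → F / [F, ker p]`. -/
noncomputable def Bh : E Γ →* F ⧸ NN p where
  toFun e := bv p s hs e.m * QuotientGroup.mk (s e.g)
  map_one' := by
    rw [E.one_m, E.one_g, bv_neg, bv_br_one, inv_mul_cancel]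
  map_mul' x y := by
    rw [E.mul_m, E.mul_g, bv_add, bv_add, bv_br]
    calc bv p s hs x.m * bv p s hs y.m * (cc p s hs x.g y.g : F ⧸ NN p) *
          QuotientGroup.mk (s (x.g * y.g))
        = bv p s hs x.m * bv p s hs y.m * ((cc p s hs x.g y.g : F ⧸ NN p) *
          QuotientGroup.mk (s (x.g * y.g))) := by rw [mul_assoc]
      _ = bv p s hs x.m * bv p s hs y.m * (QuotientGroup.mk (s x.g) *
          QuotientGroup.mk (s y.g)) := by rw [← cc_rel]
      _ = bv p s hs x.m * (bv p s hs y.m * QuotientGroup.mk (s x.g)) *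
          QuotientGroup.mk (s y.g) := by group
      _ = bv p s hs x.m * (QuotientGroup.mk (s x.g) * bv p s hs y.m) *
          QuotientGroup.mk (s y.g) := by rw [bv_comm]
      _ = bv p s hs x.m * QuotientGroup.mk (s x.g) *
          (bv p s hs y.m * QuotientGroup.mk (s y.g)) := by group

end

theorem pf_KER : T_KER := by
  intro F Γ _ _ p lam hlam hp x hx hal
  choose s hs using hp
  obtain ⟨hx1, hx2⟩ := Subgroup.mem_inf.1 hx
  have key := eq_on_comm ((Bh p s hs).comp lam) (QuotientGroup.mk' (NN p)) (by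
    intro f
    have h1 : (QuotientGroup.mk f : F ⧸ NN p)
        = QuotientGroup.mk (f * (s (p f))⁻¹) * QuotientGroup.mk (s (p f)) := by
      rw [← QuotientGroup.mk_mul, inv_mul_cancel_right]
    have h2 : (QuotientGroup.mk (f * (s (p f))⁻¹) : F ⧸ NN p) ∈ Subgroup.center (F ⧸ NN p) := by
      apply mk_mem_center
      rw [MonoidHom.mem_ker, map_mul, map_inv, hs, mul_inv_cancel]
    have h3 : ((Bh p s hs).comp lam) f * ((QuotientGroup.mk' (NN p)) f)⁻¹
        = bv p s hs (lam f).m * (QuotientGroup.mk (f * (s (p f))⁻¹) : F ⧸ NN p)⁻¹ := by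
      show bv p s hs (lam f).m * QuotientGroup.mk (s (lam f).g) *
        (QuotientGroup.mk f : F ⧸ NN p)⁻¹ = _
      rw [hlam f, h1, mul_inv_rev]
      group
    rw [h3]
    exact mul_mem (bv_center p s hs _) (inv_mem h2)) x hx2
  have h1 : lam x = 1 := by
    rw [lam_eq_inc hlam hx1, hal]
    exact map_one _
  have h2 : (QuotientGroup.mk x : F ⧸ NN p) = 1 := by
    have : ((Bh p s hs).comp lam) x = 1 := by
      rw [MonoidHom.comp_apply, h1, map_one]
    rw [← this, key]
    rfl
  exact (QuotientGroup.eq_one_iff x).1 h2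

end Pool.Agent.H3.HG
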