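import Pool.Agent.H3.HG.Targets

/-!
Row NAT of the board `hg_modules`, and a lemma on two homomorphisms to a central extension
which agree after projection.
-/

namespace Pool.Agent.H3.HG

open Finsupp
open scoped commutatorElement

/-- Two homomorphisms to `E Γ` with the same projection agree on the commutator subgroup. -/
lemma eq_on_commutator {F Γ : Type} [Group F] [Group Γ] (a b : F →* E Γ)
    (h : ∀ x, (a x).g = (b x).g) : ∀ x ∈ commutator F, a x = b x := by
  have key : ∀ x, a x * (b x)⁻¹ = E.inc (Multiplicative.ofAdd ((a x * (b x)⁻¹).m + br 1 1)) := by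
    intro x
    apply E.eq_inc_of_g
    rw [E.mul_g, E.inv_g, h x, mul_inv_cancel]
  have hc : ∀ x (y : E Γ), (a x * (b x)⁻¹) * y = y * (a x * (b x)⁻¹) := by
    intro x y
    rw [key x]
    exact E.inc_comm _ _
  let τ : F →* E Γ :=
    { toFun := fun x => a x * (b x)⁻¹
      map_one' := by simp
      map_mul' := by
        intro x y
        calc a (x * y) * (b (x * y))⁻¹ = a x * ((a y * (b y)⁻¹) * (b x)⁻¹) := by
              rw [map_mul, map_mul]; group
          _ = a x * ((b x)⁻¹ * (a y * (b y)⁻¹)) := by rw [hc y]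
          _ = a x * (b x)⁻¹ * (a y * (b y)⁻¹) := by group }
  intro x hx
  have hle : commutator F ≤ τ.ker := by
    rw [commutator_def, Subgroup.commutator_le]
    intro u _ v _
    rw [MonoidHom.mem_ker, map_commutatorElement, commutatorElement_eq_one_iff_mul_comm]
    exact hc u (τ v)
  have : a x * (b x)⁻¹ = 1 := hle hx
  exact mul_inv_eq_one.1 this

/-- Functoriality of `E`. -/
noncomputable def Emap {Γ' Γ : Type} [Group Γ'] [Group Γ] (φ : Γ' →* Γ) : E Γ' →* E Γ where
  toFun e := ⟨Mmap φ e.m, φ e.g⟩
  map_one' := by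
    ext
    · simp [Mmap_br]
    · simp
  map_mul' x y := by
    ext
    · simp [Mmap_br]
    · simp

theorem pf_NAT : T_NAT := by
  intro F' F Γ' Γ _ _ _ _ p' p φ ψ hc lam' lam h' h x hx
  have hx2 : x ∈ commutator F' := (Subgroup.mem_inf.1 hx).2
  have := eq_on_commutator ((Emap φ).comp lam') (lam.comp ψ) (by
    intro y
    show φ (lam' y).g = (lam (ψ y)).g
    rw [h' y, h (ψ y), hc y]) x hx2
  have h1 : Mmap φ (lam' x).m = (lam (ψ x)).m := congrArg E.m this
  rw [al, al, map_add, h1, Mmap_br]
  simp

end Pool.Agent.H3.HG
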