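import Pool.Agent.H3.HG.Targets

/-!
Row SUR of the board `hg_modules`.
-/

namespace Pool.Agent.H3.HG

open Finsupp
open scoped commutatorElement

/-- The homomorphism `[g] ↦ class of (0, g)` to the abelianization of `E Γ`. -/
noncomputable def muh (Γ : Type) [Group Γ] : (Γ →₀ ℤ) →+ Additive (Abelianization (E Γ)) :=
  liftAddHom fun g => zmultiplesHom _ (Additive.ofMul (Abelianization.of (⟨0, g⟩ : E Γ)))

lemma muh_single {Γ : Type} [Group Γ] (g : Γ) :
    muh Γ (single g 1) = Additive.ofMul (Abelianization.of (⟨0, g⟩ : E Γ)) := by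
  simp [muh]

/-- The class of `inc m` in the abelianization. -/
noncomputable def inch (Γ : Type) [Group Γ] : M Γ →+ Additive (Abelianization (E Γ)) :=
  MonoidHom.toAdditiveRight ((Abelianization.of).comp (E.inc (Γ := Γ)))

lemma inch_apply {Γ : Type} [Group Γ] (m : M Γ) :
    inch Γ m = Additive.ofMul (Abelianization.of (E.inc (Multiplicative.ofAdd m))) := rfl

lemma inc_br_mul {Γ : Type} [Group Γ] (g h : Γ) :
    (E.inc (Multiplicative.ofAdd (br g h)) : E Γ) * ⟨0, g * h⟩ = ⟨0, g⟩ * ⟨0, h⟩ := by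
  ext
  · simp [br_one_left]
  · simp

lemma inch_eq {Γ : Type} [Group Γ] : inch Γ = (muh Γ).comp (dbar Γ) := by
  apply M_hom_ext
  intro g k
  rw [inch_apply, AddMonoidHom.comp_apply, dbar_br, map_add, map_sub, muh_single, muh_single,
    muh_single]
  have h := congrArg (fun e => Additive.ofMul (Abelianization.of e)) (inc_br_mul g k)
  simp only [map_mul, ofMul_mul] at h
  rw [eq_sub_of_add_eq h]
  abel

lemma inc_mem_commutator {Γ : Type} [Group Γ] (m : M Γ) (hm : m ∈ Z2 Γ) :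
    (E.inc (Multiplicative.ofAdd m) : E Γ) ∈ commutator (E Γ) := by
  have h0 : dbar Γ m = 0 := hm
  have h1 : inch Γ m = 0 := by
    rw [inch_eq, AddMonoidHom.comp_apply, h0, map_zero]
  have h2 : Abelianization.of (E.inc (Multiplicative.ofAdd m) : E Γ) = 1 := by
    have := congrArg Additive.toMul h1
    simpa [inch_apply] using this
  rw [← Abelianization.ker_of]
  exact h2

lemma commutator_le_map {F Γ : Type} [Group F] [Group Γ] (p : F →* Γ) (lam : F →* E Γ)
    (hlam : IsLift p lam) (hp : Function.Surjective p) :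
    commutator (E Γ) ≤ (commutator F).map lam := by
  have dec : ∀ e : E Γ, ∃ m f, e = E.inc m * lam f := by
    intro e
    obtain ⟨f, hf⟩ := hp e.g
    refine ⟨Multiplicative.ofAdd ((e * (lam f)⁻¹).m + br 1 1), f, ?_⟩
    rw [← E.eq_inc_of_g (e * (lam f)⁻¹) (by rw [E.mul_g, E.inv_g, hlam f, hf, mul_inv_cancel])]
    group
  rw [commutator_def, commutator_def, Subgroup.map_commutator, Subgroup.commutator_le]
  intro a _ b _
  obtain ⟨m, f, rfl⟩ := dec a
  obtain ⟨m', f', rfl⟩ := dec b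
  have : ⁅E.inc m * lam f, E.inc m' * lam f'⁆ = ⁅lam f, lam f'⁆ := by
    have c1 : ∀ x : E Γ, E.inc m * x = x * E.inc m := E.inc_comm m
    have c2 : ∀ x : E Γ, E.inc m' * x = x * E.inc m' := E.inc_comm m'
    rw [commutatorElement_def, commutatorElement_def, mul_inv_rev, mul_inv_rev]
    calc E.inc m * lam f * (E.inc m' * lam f') * ((lam f)⁻¹ * (E.inc m)⁻¹) *
          ((lam f')⁻¹ * (E.inc m')⁻¹)
        = E.inc m * (lam f * (E.inc m' * lam f') * (lam f)⁻¹) * (E.inc m)⁻¹ *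
          ((lam f')⁻¹ * (E.inc m')⁻¹) := by group
      _ = (lam f * (E.inc m' * lam f') * (lam f)⁻¹) * E.inc m * (E.inc m)⁻¹ *
          ((lam f')⁻¹ * (E.inc m')⁻¹) := by rw [c1]
      _ = lam f * (E.inc m' * (lam f' * (lam f)⁻¹ * (lam f')⁻¹)) * (E.inc m')⁻¹ := by group
      _ = lam f * ((lam f' * (lam f)⁻¹ * (lam f')⁻¹) * E.inc m') * (E.inc m')⁻¹ := by rw [c2]
      _ = lam f * lam f' * (lam f)⁻¹ * (lam f')⁻¹ := by group
  rw [this]
  exact Subgroup.commutator_mem_commutator ⟨f, trivial, rfl⟩ ⟨f', trivial, rfl⟩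

theorem pf_SUR : T_SUR := by
  intro F Γ _ _ p lam hlam hp m hm
  obtain ⟨x, hx, hxe⟩ := commutator_le_map p lam hlam hp (inc_mem_commutator m hm)
  have hg : (lam x).g = 1 := by rw [hxe]; rfl
  refine ⟨x, Subgroup.mem_inf.2 ⟨by rw [MonoidHom.mem_ker, ← hlam x, hg], hx⟩, ?_⟩
  rw [al, hxe]
  simp

end Pool.Agent.H3.HG
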