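import Pool.Agent.H3.HG.CZ
import Pool.Agent.H3.HG.INV
import Pool.Agent.H3.HG.KER
import Pool.Agent.H3.HG.NAT
import Pool.Agent.H3.HG.SUR
import Pool.Agent.H57.HG.API
import Pool.Agent.H57.HG.LFR
import Pool.Agent.H23.HG.NFG
import Pool.Agent.H23.HG.ALG
import Pool.Agent.H27.HG.POL
import Pool.Agent.H27.HG.GRP
import Pool.Agent.H27.HG.HBS
import Pool.Agent.H27.HG.NOE
import Pool.Agent.H82.HG.WAR

/-!
Second homology in a lower central genus: the theorems in terms of Mathlib's group homology.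
-/

namespace Pool.Agent.H3.HG

theorem t_GRP : T_GRP :=
  H27.HG.pf_GRP H27.HG.pf_NOE (H23.HG.pf_NFG H27.HG.pf_NOE H23.HG.pf_WCL)
    (H27.HG.pf_POL H27.HG.pf_HBS) H82.HG.pf_WAR

theorem t_ALG : T_ALG := H23.HG.pf_ALG t_GRP

theorem t_PSI : T_PSI := pf_PSI pf_CYC pf_SUR pf_KER pf_ZER

theorem t_INV : T_INV := pf_INV pf_CYC pf_ZER pf_KER t_PSI H27.HG.pf_NOE

theorem t_LFR : T_LFR := H57.HG.pf_LFR pf_SUR pf_ZER

theorem t_GEN : T_GEN := pf_GEN pf_CYC pf_SUR pf_KER pf_ZER pf_NAT t_ALG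

/-- A class which dies in `H₂` of all quotients `H/γ_n` comes from `H₂(N)`, for every normal
subgroup `N` with nilpotent quotient. -/
theorem general (H : Type) [Group H] [Group.FG H] (N : Subgroup H) [N.Normal]
    (hN : Group.IsNilpotent (H ⧸ N)) (z : HH H)
    (hz : ∀ n, HHmap (QuotientGroup.mk' ((⊤ : Subgroup H).lowerCentralSeries n)) z = 0) :
    ∃ w : HH N, HHmap N.subtype w = z := by
  obtain ⟨J, hJ⟩ := H57.HG.pf_API
  obtain ⟨w, hw, hwz⟩ := t_GEN H N hN (J H z : M H) (J H z).2 (by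
    intro n
    rw [← hJ, hz n, map_zero]
    rfl)
  refine ⟨(J N).symm ⟨w, hw⟩, ?_⟩
  apply (J H).injective
  apply Subtype.ext
  rw [hJ, AddEquiv.apply_symm_apply]
  exact hwz

/-- In a lower central genus with a group without second homology all classes die in the second
homology of the quotients `H/γ_n`. -/
theorem invisible (G H : Type) [Group G] [Group H] [Group.FG H]
    (hiso : ∀ n, Nonempty (G ⧸ (⊤ : Subgroup G).lowerCentralSeries n ≃*
      H ⧸ (⊤ : Subgroup H).lowerCentralSeries n)) (hG : Subsingleton (HH G)) (z : HH H) (n : ℕ) :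
    HHmap (QuotientGroup.mk' ((⊤ : Subgroup H).lowerCentralSeries n)) z = 0 := by
  obtain ⟨J, hJ⟩ := H57.HG.pf_API
  have hG' : ∀ m ∈ Z2 G, m = 0 := by
    intro m hm
    have h1 : (J G).symm ⟨m, hm⟩ = 0 := Subsingleton.elim _ _
    have h2 : (⟨m, hm⟩ : Z2 G) = 0 := by
      rw [← (J G).apply_symm_apply ⟨m, hm⟩, h1, map_zero]
    exact congrArg Subtype.val h2
  obtain ⟨X, hX, p, hp⟩ := Group.fg_iff_exists_freeGroup_hom_surjective.1 ‹Group.FG H›
  have hF : Proj (FreeGroup X) := proj_of_free _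
  obtain ⟨lam, hlam⟩ := exists_lift hF p
  obtain ⟨x, hx, hxz⟩ := pf_SUR _ _ p lam hlam hp (J H z) (J H z).2
  have hdeep := t_INV G H hiso hG' (FreeGroup X) hF p hp x hx (n + 1)
  obtain ⟨lamn, hlamn⟩ := exists_lift hF
    ((QuotientGroup.mk' ((⊤ : Subgroup H).lowerCentralSeries n)).comp p)
  -- `al lamn x = 0`
  obtain ⟨hx1, hx2⟩ := Subgroup.mem_inf.1 hx
  have hnat := pf_NAT _ _ _ _ p
    ((QuotientGroup.mk' ((⊤ : Subgroup H).lowerCentralSeries n)).comp p)
    (QuotientGroup.mk' ((⊤ : Subgroup H).lowerCentralSeries n))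
    (MonoidHom.id _) (fun _ => rfl) lam lamn hlam hlamn x hx
  have hle : ⁅(⊤ : Subgroup (FreeGroup X)), p.ker⁆ ⊔
      (⊤ : Subgroup (FreeGroup X)).lowerCentralSeries (n + 1) ≤ ⁅(⊤ : Subgroup (FreeGroup X)),
      ((QuotientGroup.mk' ((⊤ : Subgroup H).lowerCentralSeries n)).comp p).ker⁆ := by
    rw [comap_lcs p hp n]
    apply sup_le
    · exact Subgroup.commutator_mono le_rfl le_sup_left
    · rw [Subgroup.lowerCentralSeries_succ, Subgroup.commutator_comm]
      exact Subgroup.commutator_mono le_rfl le_sup_right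
  have h0 : al lamn x = 0 := (pf_ZER _ _ _ lamn hlamn).1 x (hle hdeep)
  apply (J _).injective
  rw [map_zero]
  apply Subtype.ext
  rw [hJ, ← hxz, hnat]
  exact h0

/-- The theorem on lower central genera. -/
theorem genus (G H : Type) [Group G] [Group H] [Group.FG H]
    (hiso : ∀ n, Nonempty (G ⧸ (⊤ : Subgroup G).lowerCentralSeries n ≃*
      H ⧸ (⊤ : Subgroup H).lowerCentralSeries n)) (hG : Subsingleton (HH G))
    (N : Subgroup H) [N.Normal] (hN : Group.IsNilpotent (H ⧸ N)) :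
    Function.Surjective (HHmap N.subtype) :=
  fun z => general H N hN z (invisible G H hiso hG z)

theorem locFree_subsingleton (N : Type) [Group N] (hN : LocFree N) : Subsingleton (HH N) := by
  obtain ⟨J, -⟩ := H57.HG.pf_API
  refine ⟨fun a b => ?_⟩
  apply (J N).injective
  apply Subtype.ext
  rw [t_LFR N hN _ (J N a).2, t_LFR N hN _ (J N b).2]

end Pool.Agent.H3.HG
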