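import Pool.Agent.H3.HG.Targets

/-!
Rows CYC and ZER of the board `hg_modules`.
-/

namespace Pool.Agent.H3.HG

open Finsupp
open scoped commutatorElement

/-- The homomorphism `(m, g) ↦ d m + [g]`. -/
noncomputable def Lh (Γ : Type) [Group Γ] : E Γ →* Multiplicative (Γ →₀ ℤ) where
  toFun e := Multiplicative.ofAdd (dbar Γ e.m + single e.g 1)
  map_one' := by
    have : dbar Γ (-br 1 1) + single (1 : Γ) (1 : ℤ) = 0 := by
      rw [map_neg, dbar_br]; simp
    show Multiplicative.ofAdd (dbar Γ (-br 1 1) + single (1 : Γ) (1 : ℤ)) = 1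
    rw [this]
    rfl
  map_mul' x y := by
    have : dbar Γ (x.m + y.m + br x.g y.g) + single (x.g * y.g) (1 : ℤ)
        = (dbar Γ x.m + single x.g 1) + (dbar Γ y.m + single y.g 1) := by
      rw [map_add, map_add, dbar_br]; abel
    simp only [E.mul_m, E.mul_g, this, ofAdd_add]

theorem pf_CYC : T_CYC := by
  intro F Γ _ _ p lam hlam x hx
  obtain ⟨hx1, hx2⟩ := Subgroup.mem_inf.1 hx
  have h1 : ((Lh Γ).comp lam) x = 1 := Abelianization.commutator_subset_ker _ hx2
  have h2 : dbar Γ (lam x).m + single (lam x).g 1 = 0 := by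
    have := congrArg Multiplicative.toAdd h1
    simpa [Lh] using this
  have h3 : (lam x).g = 1 := by rw [hlam x]; exact hx1
  rw [h3] at h2
  show dbar Γ _ = 0
  rw [al, map_add, dbar_br, ← h2]
  simp

theorem pf_ZER : T_ZER := by
  intro F Γ _ _ p lam hlam
  refine ⟨?_, ?_, ?_⟩
  · intro u hu
    have hle : ⁅(⊤ : Subgroup F), p.ker⁆ ≤ lam.ker := by
      rw [Subgroup.commutator_le]
      intro f _ r hr
      rw [MonoidHom.mem_ker, map_commutatorElement, lam_eq_inc hlam hr,
        commutatorElement_eq_one_iff_mul_comm]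
      exact (E.inc_comm _ _).symm
    have : lam u = 1 := hle hu
    rw [al, this]
    simp
  · intro x hx y hy
    have h := lam_eq_inc hlam (mul_mem hx hy)
    rw [map_mul, lam_eq_inc hlam hx, lam_eq_inc hlam hy, ← map_mul, ← ofAdd_add] at h
    exact (Multiplicative.ofAdd.injective (E.inc_injective h)).symm
  · rw [al, map_one]
    simp

end Pool.Agent.H3.HG
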