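import Mathlib

/-!
Second homology in a lower central genus (MP_b7ea10_al): definitions.

For a group `Γ` (in `Type`), `M Γ` is the group of inhomogeneous 2-chains with integer
coefficients modulo the boundaries of 3-chains, `dbar` is the differential `M Γ → C₁ Γ`
(so that the kernel of `dbar` is `H₂(Γ, ℤ)`), and `E Γ` is the central extension of `Γ` by `M Γ`
with cocycle `(g, h) ↦ [g | h]`.
-/

namespace Pool.Agent.H3.HG

open Finsupp
open scoped commutatorElement

section chains

variable (Γ : Type) [Group Γ]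

/-- The subgroup of boundaries of 3-chains in the group of 2-chains. -/
noncomputable def bd : AddSubgroup (Γ × Γ →₀ ℤ) :=
  AddSubgroup.closure {c | ∃ g h k : Γ, c = single (h, k) 1 - single (g * h, k) 1
    + single (g, h * k) 1 - single (g, h) 1}

/-- The differential from 2-chains to 1-chains. -/
noncomputable def dd : (Γ × Γ →₀ ℤ) →+ (Γ →₀ ℤ) :=
  liftAddHom fun p => singleAddHom p.2 - singleAddHom (p.1 * p.2) + singleAddHom p.1

variable {Γ}

lemma dd_single (g h : Γ) (n : ℤ) :
    dd Γ (single (g, h) n) = single h n - single (g * h) n + single g n := by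
  simp [dd]

lemma bd_le_ker : bd Γ ≤ (dd Γ).ker := by
  rw [bd, AddSubgroup.closure_le]
  rintro c ⟨g, h, k, rfl⟩
  simp only [SetLike.mem_coe, AddMonoidHom.mem_ker, map_sub, map_add, dd_single]
  rw [mul_assoc]
  abel

variable (Γ)

/-- 2-chains modulo boundaries. -/
abbrev M : Type := (Γ × Γ →₀ ℤ) ⧸ bd Γ

/-- The differential on `M Γ`; its kernel is the second homology group. -/
noncomputable def dbar : M Γ →+ (Γ →₀ ℤ) :=
  QuotientAddGroup.lift (bd Γ) (dd Γ) bd_le_ker

/-- The second homology group, as a subgroup of `M Γ`. -/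
noncomputable def Z2 : AddSubgroup (M Γ) := (dbar Γ).ker

variable {Γ}

/-- The class `[g | h]`. -/
noncomputable def br (g h : Γ) : M Γ := QuotientAddGroup.mk (single (g, h) (1 : ℤ))

lemma br_cocycle (g h k : Γ) : br h k + br g (h * k) = br (g * h) k + br g h := by
  have h0 : (QuotientAddGroup.mk (single (h, k) (1 : ℤ) - single (g * h, k) 1
      + single (g, h * k) 1 - single (g, h) 1) : M Γ) = 0 := by
    rw [QuotientAddGroup.eq_zero_iff]
    exact AddSubgroup.subset_closure ⟨g, h, k, rfl⟩
  have h1 : br h k - br (g * h) k + br g (h * k) - br g h = 0 := h0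
  have h2 : br h k + br g (h * k) - (br (g * h) k + br g h) = 0 := by
    rw [← h1]; abel
  exact sub_eq_zero.1 h2

lemma br_one_left (h : Γ) : br 1 h = br (1 : Γ) 1 := by
  have := br_cocycle (1 : Γ) 1 h
  simp only [one_mul] at this
  exact add_left_cancel this

lemma br_one_right (g : Γ) : br g 1 = br (1 : Γ) 1 := by
  have := br_cocycle g (1 : Γ) 1
  simp only [mul_one] at this
  exact (add_right_cancel this).symm

lemma dbar_br (g h : Γ) : dbar Γ (br g h) = single h 1 - single (g * h) 1 + single g 1 := by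
  show dd Γ _ = _
  rw [dd_single]

/-- Induction principle for `M Γ`. -/
lemma M_induction {P : M Γ → Prop} (h0 : P 0) (hbr : ∀ g h, P (br g h))
    (hadd : ∀ a b, P a → P b → P (a + b)) (hneg : ∀ a, P a → P (-a)) (m : M Γ) : P m := by
  induction m using QuotientAddGroup.induction_on with
  | H c =>
    induction c using Finsupp.induction_linear with
    | zero => exact h0
    | add f g hf hg => exact hadd _ _ hf hg
    | single p n =>
      obtain ⟨g, h⟩ := p
      have key : ∀ k : ℕ, P (QuotientAddGroup.mk (single (g, h) (k : ℤ)) : M Γ) := by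
        intro k
        induction k with
        | zero => simpa using h0
        | succ k ih =>
          have : (single (g, h) ((k + 1 : ℕ) : ℤ)) = single (g, h) (k : ℤ) + single (g, h) 1 := by
            rw [← single_add]; push_cast; rfl
          rw [this]
          exact hadd _ _ ih (hbr g h)
      rcases Int.eq_nat_or_neg n with ⟨k, rfl | rfl⟩
      · exact key k
      · have : (single (g, h) (-(k : ℤ))) = -single (g, h) (k : ℤ) := by
          rw [single_neg]
        rw [this]
        exact hneg _ (key k)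

/-- Two additive homomorphisms on `M Γ` which agree on all `[g | h]` are equal. -/
lemma M_hom_ext {A : Type*} [AddCommGroup A] {f f' : M Γ →+ A}
    (h : ∀ g k, f (br g k) = f' (br g k)) : f = f' := by
  refine AddMonoidHom.ext fun m => ?_
  induction m using M_induction with
  | h0 => simp
  | hbr g k => exact h g k
  | hadd a b ha hb => simp [ha, hb]
  | hneg a ha => simp [ha]

variable {Γ' : Type} [Group Γ']

lemma bd_le_comap (φ : Γ' →* Γ) :
    bd Γ' ≤ (bd Γ).comap (Finsupp.mapDomain.addMonoidHom (Prod.map φ φ)) := by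
  rw [bd, AddSubgroup.closure_le]
  rintro c ⟨g, h, k, rfl⟩
  simp only [AddSubgroup.coe_comap, Set.mem_preimage, SetLike.mem_coe, map_sub, map_add,
    Finsupp.mapDomain.addMonoidHom_apply, Finsupp.mapDomain_single, Prod.map_apply, map_mul]
  exact AddSubgroup.subset_closure ⟨φ g, φ h, φ k, rfl⟩

/-- Functoriality of `M`. -/
noncomputable def Mmap (φ : Γ' →* Γ) : M Γ' →+ M Γ :=
  QuotientAddGroup.map (bd Γ') (bd Γ) (Finsupp.mapDomain.addMonoidHom (Prod.map φ φ))
    (bd_le_comap φ)

lemma Mmap_mk (φ : Γ' →* Γ) (c : Γ' × Γ' →₀ ℤ) :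
    Mmap φ (QuotientAddGroup.mk c) = QuotientAddGroup.mk (Finsupp.mapDomain (Prod.map φ φ) c) :=
  rfl

lemma Mmap_br (φ : Γ' →* Γ) (g h : Γ') : Mmap φ (br g h) = br (φ g) (φ h) := by
  show (QuotientAddGroup.mk (Finsupp.mapDomain (Prod.map φ φ) (single (g, h) (1 : ℤ))) : M Γ) = _
  rw [Finsupp.mapDomain_single]
  rfl

end chains

/-- The central extension of `Γ` by `M Γ` with cocycle `[g | h]`. -/
@[ext]
structure E (Γ : Type) [Group Γ] where
  m : M Γ
  g : Γ

namespace E

variable {Γ : Type} [Group Γ]

noncomputable instance : Mul (E Γ) := ⟨fun x y => ⟨x.m + y.m + br x.g y.g, x.g * y.g⟩⟩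
noncomputable instance : One (E Γ) := ⟨⟨-br 1 1, 1⟩⟩
noncomputable instance : Inv (E Γ) := ⟨fun x => ⟨-x.m - br x.g⁻¹ x.g - br 1 1, x.g⁻¹⟩⟩

@[simp] lemma mul_m (x y : E Γ) : (x * y).m = x.m + y.m + br x.g y.g := rfl
@[simp] lemma mul_g (x y : E Γ) : (x * y).g = x.g * y.g := rfl
@[simp] lemma one_m : (1 : E Γ).m = -br 1 1 := rfl
@[simp] lemma one_g : (1 : E Γ).g = 1 := rfl
@[simp] lemma inv_m (x : E Γ) : (x⁻¹).m = -x.m - br x.g⁻¹ x.g - br 1 1 := rfl
@[simp] lemma inv_g (x : E Γ) : (x⁻¹).g = x.g⁻¹ := rfl

noncomputable instance : Group (E Γ) :=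
  Group.ofLeftAxioms
    (by
      intro x y z
      ext
      · simp only [mul_m, mul_g]
        have := br_cocycle x.g y.g z.g
        calc x.m + y.m + br x.g y.g + z.m + br (x.g * y.g) z.g
            = x.m + y.m + z.m + (br (x.g * y.g) z.g + br x.g y.g) := by abel
          _ = x.m + y.m + z.m + (br y.g z.g + br x.g (y.g * z.g)) := by rw [this]
          _ = x.m + (y.m + z.m + br y.g z.g) + br x.g (y.g * z.g) := by abel
      · simp [mul_assoc])
    (by
      intro x
      ext
      · simp only [mul_m, one_m, one_g, br_one_left]; abel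
      · simp)
    (by
      intro x
      ext
      · simp only [mul_m, inv_m, inv_g, one_m]; abel
      · simp)

/-- The projection `E Γ → Γ`. -/
noncomputable def pr : E Γ →* Γ where
  toFun := E.g
  map_one' := rfl
  map_mul' _ _ := rfl

/-- The central inclusion `M Γ → E Γ`. -/
noncomputable def inc : Multiplicative (M Γ) →* E Γ where
  toFun m := ⟨Multiplicative.toAdd m - br 1 1, 1⟩
  map_one' := by
    ext <;> simp
  map_mul' a b := by
    ext
    · simp only [toAdd_mul, mul_m]; abel
    · simp

@[simp] lemma pr_apply (x : E Γ) : pr x = x.g := rfl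
@[simp] lemma inc_m (m : Multiplicative (M Γ)) : (inc m).m = Multiplicative.toAdd m - br 1 1 := rfl
@[simp] lemma inc_g (m : Multiplicative (M Γ)) : (inc m).g = 1 := rfl

lemma pr_surjective : Function.Surjective (pr : E Γ →* Γ) := fun g => ⟨⟨0, g⟩, rfl⟩

lemma inc_injective : Function.Injective (inc : Multiplicative (M Γ) →* E Γ) := by
  intro a b h
  have := congrArg E.m h
  simp only [inc_m] at this
  exact Multiplicative.toAdd.injective (sub_left_injective this)

lemma inc_comm (m : Multiplicative (M Γ)) (x : E Γ) : inc m * x = x * inc m := by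
  ext
  · simp only [mul_m, inc_m, inc_g, br_one_left, br_one_right]; abel
  · simp

/-- Every element over `1` is in the image of `inc`. -/
lemma eq_inc_of_g (x : E Γ) (h : x.g = 1) : x = inc (Multiplicative.ofAdd (x.m + br 1 1)) := by
  ext
  · simp
  · simpa using h

end E

/-- `lam` is a lift of `p : F →* Γ` to the central extension `E Γ`. -/
def IsLift {F Γ : Type} [Group F] [Group Γ] (p : F →* Γ) (lam : F →* E Γ) : Prop :=
  ∀ x, (lam x).g = p x

/-- The map `α` of the Hopf formula: for `x` in the kernel of `p`, `lam x = inc (al lam x)`. -/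
noncomputable def al {F Γ : Type} [Group F] [Group Γ] (lam : F →* E Γ) (x : F) : M Γ :=
  (lam x).m + br 1 1

lemma lam_eq_inc {F Γ : Type} [Group F] [Group Γ] {p : F →* Γ} {lam : F →* E Γ}
    (h : IsLift p lam) {x : F} (hx : x ∈ p.ker) :
    lam x = E.inc (Multiplicative.ofAdd (al lam x)) :=
  E.eq_inc_of_g _ (by rw [h x]; exact hx)

/-- `F` is projective: every homomorphism lifts along every surjection. -/
def Proj (F : Type) [Group F] : Prop :=
  ∀ (A B : Type) [Group A] [Group B] (q : A →* B), Function.Surjective q →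
    ∀ f : F →* B, ∃ g : F →* A, ∀ x, q (g x) = f x

lemma proj_of_free (F : Type) [Group F] [IsFreeGroup F] : Proj F := by
  obtain ⟨ι, ⟨b⟩⟩ := IsFreeGroup.nonempty_basis (G := F)
  intro A B _ _ q hq f
  choose s hs using hq
  refine ⟨b.lift fun i => s (f (b i)), fun x => ?_⟩
  have : q.comp (b.lift fun i => s (f (b i))) = f := by
    apply b.ext_hom
    intro i
    simp [hs]
  exact DFunLike.congr_fun this x

/-- A lift of `p` to the central extension exists. -/
lemma exists_lift {F Γ : Type} [Group F] [Group Γ] (hF : Proj F) (p : F →* Γ) :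
    ∃ lam : F →* E Γ, IsLift p lam :=
  hF (E Γ) Γ E.pr E.pr_surjective p

/-! ### Modules over a group -/

section action

variable {Q : Type} [Group Q] {A : Type} [AddCommGroup A] [DistribMulAction Q A]

/-- `N` is stable under `K`. -/
def Stab (K : Subgroup Q) (N : AddSubgroup A) : Prop := ∀ q ∈ K, ∀ m ∈ N, q • m ∈ N

/-- The maximal condition on `K`-stable subgroups of `A0`. -/
def MaxC (K : Subgroup Q) (A0 : AddSubgroup A) : Prop :=
  ∀ f : ℕ → AddSubgroup A, Monotone f → (∀ n, f n ≤ A0) → (∀ n, Stab K (f n)) →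
    ∃ n, ∀ m, n ≤ m → f m = f n

/-- The subgroup generated by all `q • m`, `q ∈ K`, `m ∈ A0`. -/
def Sp (K : Subgroup Q) (A0 : AddSubgroup A) : AddSubgroup A :=
  AddSubgroup.closure {x | ∃ q ∈ K, ∃ m ∈ A0, x = q • m}

variable (Q A) in
/-- The powers of the augmentation ideal applied to `A`. -/
def DD : ℕ → AddSubgroup A
  | 0 => ⊤
  | n + 1 => AddSubgroup.closure {x | ∃ q : Q, ∃ m ∈ DD n, x = q • m - m}

end action

/-- The series `A, [A, E], [[A, E], E], …`. -/
def cs {G : Type} [Group G] (A : Subgroup G) : ℕ → Subgroup G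
  | 0 => A
  | n + 1 => ⁅cs A n, (⊤ : Subgroup G)⁆

/-- Left normed commutators of weight `n + 1` in the elements of `X`. -/
def Cw {G : Type} [Group G] (X : Set G) : ℕ → Set G
  | 0 => X
  | n + 1 => {c | ∃ a ∈ Cw X n, ∃ x ∈ X, c = ⁅a, x⁆}

/-- Every finitely generated subgroup is free. -/
def LocFree (N : Type) [Group N] : Prop :=
  ∀ K : Subgroup N, K.FG → IsFreeGroup K

end Pool.Agent.H3.HG
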