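import Pool.Agent.H3.HG.Targets

/-!
Row GEN of the board `hg_modules`: a class of `H₂(H)` which dies in all `H₂(H/γ_n)` comes from
every normal subgroup with nilpotent quotient.
-/

namespace Pool.Agent.H3.HG

open scoped commutatorElement

lemma comap_lcs {F Γ : Type} [Group F] [Group Γ] (p : F →* Γ) (hp : Function.Surjective p)
    (n : ℕ) :
    ((QuotientGroup.mk' ((⊤ : Subgroup Γ).lowerCentralSeries n)).comp p).ker
      = p.ker ⊔ (⊤ : Subgroup F).lowerCentralSeries n := by
  have h1 : (⊤ : Subgroup Γ).lowerCentralSeries n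
      = ((⊤ : Subgroup F).lowerCentralSeries n).map p := by
    rw [Subgroup.map_lowerCentralSeries, ← MonoidHom.range_eq_map, MonoidHom.range_eq_top.2 hp]
  rw [← MonoidHom.comap_ker, QuotientGroup.ker_mk', h1, Subgroup.comap_map_eq, sup_comm]

lemma comm_ker_le {F Γ : Type} [Group F] [Group Γ] (p : F →* Γ) (hp : Function.Surjective p)
    (n : ℕ) :
    ⁅(⊤ : Subgroup F),
      ((QuotientGroup.mk' ((⊤ : Subgroup Γ).lowerCentralSeries n)).comp p).ker⁆
      ≤ ⁅(⊤ : Subgroup F), p.ker⁆ ⊔ (⊤ : Subgroup F).lowerCentralSeries (n + 1) := by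
  rw [comap_lcs p hp n, Subgroup.commutator_le]
  intro f _ y hy
  rw [sup_comm, Subgroup.mem_sup_of_normal_left] at hy
  obtain ⟨l, hl, r, hr, rfl⟩ := hy
  have e : ⁅f, l * r⁆ = ⁅f, l⁆ * (l * ⁅f, r⁆ * l⁻¹) := by
    simp only [commutatorElement_def]; group
  rw [e]
  refine mul_mem ?_ ?_
  · apply Subgroup.mem_sup_right
    rw [Subgroup.lowerCentralSeries_succ, Subgroup.commutator_comm]
    exact Subgroup.commutator_mem_commutator trivial hl
  · apply Subgroup.mem_sup_left
    exact (inferInstance : (⁅(⊤ : Subgroup F), p.ker⁆).Normal).conj_mem _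
      (Subgroup.commutator_mem_commutator trivial hr) l

theorem pf_GEN (hCYC : T_CYC) (hSUR : T_SUR) (hKER : T_KER) (hZER : T_ZER) (hNAT : T_NAT)
    (hALG : T_ALG) : T_GEN := by
  intro H _ _ N _ hN z hz hzn
  obtain ⟨X, hX, p, hp⟩ := Group.fg_iff_exists_freeGroup_hom_surjective.1 ‹Group.FG H›
  have : Finite X := hX
  have hF : Proj (FreeGroup X) := proj_of_free _
  obtain ⟨lam, hlam⟩ := exists_lift hF p
  obtain ⟨x, hx, hxz⟩ := hSUR _ _ p lam hlam hp z hz
  obtain ⟨hx1, hx2⟩ := Subgroup.mem_inf.1 hx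
  -- deepness
  have hdeep : ∀ n, x ∈ ⁅(⊤ : Subgroup (FreeGroup X)), p.ker⁆ ⊔
      (⊤ : Subgroup (FreeGroup X)).lowerCentralSeries n := by
    have hsucc : ∀ n, x ∈ ⁅(⊤ : Subgroup (FreeGroup X)), p.ker⁆ ⊔
        (⊤ : Subgroup (FreeGroup X)).lowerCentralSeries (n + 1) := by
      intro n
      apply comm_ker_le p hp n
      obtain ⟨lamn, hlamn⟩ := exists_lift hF
        ((QuotientGroup.mk' ((⊤ : Subgroup H).lowerCentralSeries n)).comp p)
      apply hKER _ _ _ lamn hlamn ((QuotientGroup.mk'_surjective _).comp hp) x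
      · refine Subgroup.mem_inf.2 ⟨?_, hx2⟩
        rw [MonoidHom.mem_ker, MonoidHom.comp_apply, hx1, map_one]
      · have := hNAT _ _ _ _ p
          ((QuotientGroup.mk' ((⊤ : Subgroup H).lowerCentralSeries n)).comp p)
          (QuotientGroup.mk' ((⊤ : Subgroup H).lowerCentralSeries n))
          (MonoidHom.id _) (fun _ => rfl) lam lamn hlam hlamn x hx
        rw [hxz, hzn n] at this
        exact this.symm
    intro n
    cases n with
    | zero => exact Subgroup.mem_sup_right trivial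
    | succ n => exact hsucc n
  -- the algebraic core
  set S : Subgroup (FreeGroup X) := N.comap p with hS
  have hRS : p.ker ≤ S := fun y hy => by
    show p y ∈ N
    rw [MonoidHom.mem_ker.1 hy]
    exact one_mem N
  have hSn : S.Normal := by rw [hS]; infer_instance
  have hnil : Group.IsNilpotent (FreeGroup X ⧸ S) := by
    have hsurj : Function.Surjective ((QuotientGroup.mk' N).comp p) :=
      (QuotientGroup.mk'_surjective _).comp hp
    have hk : ((QuotientGroup.mk' N).comp p).ker = S := by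
      rw [← MonoidHom.comap_ker, QuotientGroup.ker_mk']
    let e := QuotientGroup.quotientKerEquivOfSurjective _ hsurj
    let e2 : FreeGroup X ⧸ S ≃* FreeGroup X ⧸ ((QuotientGroup.mk' N).comp p).ker :=
      QuotientGroup.quotientMulEquivOfEq hk.symm
    exact Group.nilpotent_of_mulEquiv (e2.trans e).symm
  obtain ⟨u, hu, y, hy, hxy⟩ := hALG (FreeGroup X) S p.ker hRS hnil x hx1 hdeep
  obtain ⟨hy1, hy2⟩ := Subgroup.mem_inf.1 hy
  obtain ⟨z1, z2, z3⟩ := hZER _ _ p lam hlam
  have hu1 : u ∈ p.ker := Subgroup.commutator_le_right _ _ hu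
  have haly : al lam y = z := by
    rw [← hxz, hxy, z2 u hu1 y hy1, z1 u hu, zero_add]
  -- the class in `N`
  let q : S →* N := (p.comp S.subtype).codRestrict N (fun s => s.2)
  have hq : Function.Surjective q := by
    rintro ⟨h, hh⟩
    obtain ⟨f, rfl⟩ := hp h
    exact ⟨⟨f, hh⟩, rfl⟩
  obtain ⟨lamS, hlamS⟩ := exists_lift (proj_of_free S) q
  have hyS : y ∈ S := hRS hy1
  have hyker : (⟨y, hyS⟩ : S) ∈ q.ker ⊓ commutator S := by
    refine Subgroup.mem_inf.2 ⟨?_, ?_⟩
    · rw [MonoidHom.mem_ker]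
      exact Subtype.ext hy1
    · have : y ∈ (commutator S).map S.subtype := by
        rw [commutator_def, Subgroup.map_commutator, ← MonoidHom.range_eq_map,
          Subgroup.range_subtype]
        exact hy2
      obtain ⟨y', hy', hyy⟩ := this
      have : y' = ⟨y, hyS⟩ := Subtype.ext hyy
      rw [← this]
      exact hy'
  refine ⟨al lamS ⟨y, hyS⟩, hCYC _ _ q lamS hlamS _ hyker, ?_⟩
  have := hNAT _ _ _ _ q p N.subtype S.subtype (fun _ => rfl) lamS lam hlamS hlam _ hyker
  rw [this]
  exact haly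

end Pool.Agent.H3.HG
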