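import Pool.Agent.H3.HG.Defs

/-!
Second homology in a lower central genus (MP_b7ea10_al): targets.
-/

namespace Pool.Agent.H3.HG

open scoped commutatorElement
open CategoryTheory

/-- Mathlib's second homology group `H₂(Γ, ℤ)`. -/
noncomputable abbrev HH (Γ : Type) [Group Γ] : ModuleCat ℤ :=
  groupHomology (Rep.trivial ℤ Γ ℤ) 2

/-- The map induced on `H₂(-, ℤ)` by a homomorphism. -/
noncomputable def HHmap {Γ' Γ : Type} [Group Γ'] [Group Γ] (φ : Γ' →* Γ) : HH Γ' →+ HH Γ :=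
  (groupHomology.map (A := Rep.trivial ℤ Γ' ℤ) (B := Rep.trivial ℤ Γ ℤ) φ
    (𝟙 (Rep.trivial ℤ Γ' ℤ)) 2).hom.toAddMonoidHom

/-- API: `H₂(Γ, ℤ)` is `Z2 Γ`, naturally. -/
def T_API : Prop :=
  ∃ J : ∀ (Γ : Type) [Group Γ], HH Γ ≃+ Z2 Γ,
    ∀ (Γ' Γ : Type) [Group Γ'] [Group Γ] (φ : Γ' →* Γ) (z : HH Γ'),
      ((J Γ (HHmap φ z) : Z2 Γ) : M Γ) = Mmap φ ((J Γ' z : Z2 Γ') : M Γ')

/-- CYC. -/
def T_CYC : Prop :=
  ∀ (F Γ : Type) [Group F] [Group Γ] (p : F →* Γ) (lam : F →* E Γ), IsLift p lam →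
    ∀ x ∈ p.ker ⊓ commutator F, al lam x ∈ Z2 Γ

/-- SUR. -/
def T_SUR : Prop :=
  ∀ (F Γ : Type) [Group F] [Group Γ] (p : F →* Γ) (lam : F →* E Γ), IsLift p lam →
    Function.Surjective p → ∀ m ∈ Z2 Γ, ∃ x ∈ p.ker ⊓ commutator F, al lam x = m

/-- KER (injectivity in the Hopf formula). -/
def T_KER : Prop :=
  ∀ (F Γ : Type) [Group F] [Group Γ] (p : F →* Γ) (lam : F →* E Γ), IsLift p lam →
    Function.Surjective p → ∀ x ∈ p.ker ⊓ commutator F, al lam x = 0 →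
      x ∈ ⁅(⊤ : Subgroup F), p.ker⁆

/-- ZER: `al` vanishes on `[F, ker p]`, and is additive on the kernel. -/
def T_ZER : Prop :=
  ∀ (F Γ : Type) [Group F] [Group Γ] (p : F →* Γ) (lam : F →* E Γ), IsLift p lam →
    (∀ u ∈ ⁅(⊤ : Subgroup F), p.ker⁆, al lam u = 0) ∧
    (∀ x ∈ p.ker, ∀ y ∈ p.ker, al lam (x * y) = al lam x + al lam y) ∧ al lam 1 = 0

/-- NAT (naturality in the Hopf formula). -/
def T_NAT : Prop :=
  ∀ (F' F Γ' Γ : Type) [Group F'] [Group F] [Group Γ'] [Group Γ]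
    (p' : F' →* Γ') (p : F →* Γ) (φ : Γ' →* Γ) (ψ : F' →* F), (∀ x, p (ψ x) = φ (p' x)) →
    ∀ (lam' : F' →* E Γ') (lam : F →* E Γ), IsLift p' lam' → IsLift p lam →
      ∀ x ∈ p'.ker ⊓ commutator F', Mmap φ (al lam' x) = al lam (ψ x)

/-- PSI: the map `H₂(Γ/γ_n) → γ_n/γ_{n+1}`. -/
def T_PSI : Prop :=
  ∀ (F Γ : Type) [Group F] [Group Γ], Proj F → ∀ (p : F →* Γ), Function.Surjective p →
    ∀ n : ℕ, 1 ≤ n →
    ∀ lam : F →* E (Γ ⧸ (⊤ : Subgroup Γ).lowerCentralSeries n),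
      IsLift ((QuotientGroup.mk' ((⊤ : Subgroup Γ).lowerCentralSeries n)).comp p) lam →
    ∃ ψ : Multiplicative (Z2 (Γ ⧸ (⊤ : Subgroup Γ).lowerCentralSeries n)) →*
        (Γ ⧸ (⊤ : Subgroup Γ).lowerCentralSeries (n + 1)),
      ψ.range = (⊤ : Subgroup (Γ ⧸ (⊤ : Subgroup Γ).lowerCentralSeries (n + 1))).lowerCentralSeries
        n ∧
      (∀ x ∈ ((QuotientGroup.mk' ((⊤ : Subgroup Γ).lowerCentralSeries n)).comp p).ker ⊓
          commutator F, ∀ z : Z2 (Γ ⧸ (⊤ : Subgroup Γ).lowerCentralSeries n),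
          (z : M (Γ ⧸ (⊤ : Subgroup Γ).lowerCentralSeries n)) = al lam x →
          ψ (Multiplicative.ofAdd z) = QuotientGroup.mk (p x)) ∧
      ((∀ m ∈ Z2 Γ, m = 0) → Function.Injective ψ)

/-- INV: classes of `H₂(H)` vanish in `H₂` of all nilpotent quotients `H/γ_n`. -/
def T_INV : Prop :=
  ∀ (G H : Type) [Group G] [Group H] [Group.FG H],
    (∀ n, Nonempty (G ⧸ (⊤ : Subgroup G).lowerCentralSeries n ≃*
      H ⧸ (⊤ : Subgroup H).lowerCentralSeries n)) →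
    (∀ m ∈ Z2 G, m = 0) →
    ∀ (F : Type) [Group F], Proj F → ∀ (p : F →* H), Function.Surjective p →
      ∀ x ∈ p.ker ⊓ commutator F, ∀ n,
        x ∈ ⁅(⊤ : Subgroup F), p.ker⁆ ⊔ (⊤ : Subgroup F).lowerCentralSeries n

/-- NOE: finitely generated nilpotent groups are noetherian. -/
def T_NOE : Prop :=
  ∀ (Q : Type) [Group Q] [Group.IsNilpotent Q] [Group.FG Q] (K : Subgroup Q), K.FG

/-- WCL: the lower central series and left normed commutators of generators. -/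
def T_WCL : Prop :=
  ∀ (G : Type) [Group G] (X : Set G) (n : ℕ), Subgroup.closure X = ⊤ →
    (∀ c ∈ Cw X n, c = 1) → (⊤ : Subgroup G).lowerCentralSeries n = ⊥

/-- NFG: finitely generated nilpotent groups are finitely presented, in the form needed. -/
def T_NFG : Prop :=
  ∀ (G : Type) [Group G] [Group.FG G] (S : Subgroup G) [S.Normal], Group.IsNilpotent (G ⧸ S) →
    ∃ T : Set G, T.Finite ∧ Subgroup.normalClosure T = S

/-- HBS: Hilbert basis step. -/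
def T_HBS : Prop :=
  ∀ (Q A : Type) [Group Q] [AddCommGroup A] [DistribMulAction Q A]
    (K : Subgroup Q) (t : Q) (A0 : AddSubgroup A), Stab K A0 → MaxC K A0 →
    (∀ k ∈ K, t * k * t⁻¹ ∈ K ∧ t⁻¹ * k * t ∈ K) →
    MaxC (K ⊔ Subgroup.zpowers t) (Sp (Subgroup.zpowers t) A0)

/-- POL: P. Hall's theorem for finitely generated nilpotent groups. -/
def T_POL : Prop :=
  ∀ (Q A : Type) [Group Q] [AddCommGroup A] [DistribMulAction Q A] [Group.IsNilpotent Q],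
    (∀ K : Subgroup Q, K.FG) → ∀ A0 : AddSubgroup A, A0.FG → Sp (⊤ : Subgroup Q) A0 = ⊤ →
    MaxC (⊤ : Subgroup Q) (⊤ : AddSubgroup A)

/-- WAR: the weak Artin–Rees property. -/
def T_WAR : Prop :=
  ∀ (Q A : Type) [Group Q] [AddCommGroup A] [DistribMulAction Q A] [Group.IsNilpotent Q],
    (∀ K : Subgroup Q, K.FG) → MaxC (⊤ : Subgroup Q) (⊤ : AddSubgroup A) →
    ∀ B : AddSubgroup A, (∀ q : Q, ∀ b ∈ B, q • b = b) →
      ∃ k, ∀ b ∈ B, b ∈ DD Q A k → b = 0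

/-- GRP: the group form of the weak Artin–Rees property. -/
def T_GRP : Prop :=
  ∀ (G : Type) [Group G] [Group.FG G] (A : Subgroup G) [A.Normal],
    (∀ a ∈ A, ∀ b ∈ A, a * b = b * a) → Group.IsNilpotent (G ⧸ A) →
    ∀ B : Subgroup G, B ≤ A → B ≤ Subgroup.center G → ∃ k, cs A k ⊓ B = ⊥

/-- ALG: the algebraic core. -/
def T_ALG : Prop :=
  ∀ (F : Type) [Group F] [Group.FG F] (S R : Subgroup F) [S.Normal] [R.Normal], R ≤ S →
    Group.IsNilpotent (F ⧸ S) → ∀ x ∈ R,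
    (∀ n, x ∈ ⁅(⊤ : Subgroup F), R⁆ ⊔ (⊤ : Subgroup F).lowerCentralSeries n) →
    ∃ u ∈ ⁅(⊤ : Subgroup F), R⁆, ∃ y ∈ R ⊓ ⁅S, S⁆, x = u * y

/-- LFR: locally free groups have no second homology. -/
def T_LFR : Prop := ∀ (N : Type) [Group N], LocFree N → ∀ m ∈ Z2 N, m = 0

/-- GEN: the general theorem. -/
def T_GEN : Prop :=
  ∀ (H : Type) [Group H] [Group.FG H] (N : Subgroup H) [N.Normal], Group.IsNilpotent (H ⧸ N) →
    ∀ z ∈ Z2 H, (∀ n, Mmap (QuotientGroup.mk' ((⊤ : Subgroup H).lowerCentralSeries n)) z = 0) →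
      ∃ w ∈ Z2 N, Mmap N.subtype w = z

end Pool.Agent.H3.HG
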